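import Mathlib
import Pool.Agent.TH189.Kr17

/-!
# Ranks of polynomial matrices whose eigenvalues are sums of algebraic functions of small degree

Let `Ω` be an algebraic closure of the field `ℂ(x_1, …, x_n)`.  An element of `Ω` is a *small
root* (with parameters `m`, `w`) if it is a root of a monic polynomial
`T ^ d + a_1 T ^ (d - 1) + ⋯ + a_d` with `d ≤ m` and `a_j ∈ ℂ[x]` of degree at most `w j`.

We give explicit integer points, of number polynomial in `n` and `N` for fixed `m` and `w` and
quasi-polynomial if `m` and `w` are at most polylogarithmic in `N`, with the following property.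
Let `A` be any matrix of polynomials, possibly rectangular, and suppose that there are (unknown)
matrices `G` and `H` of polynomials, such that the `N × N` matrix `Y = G A H` satisfies
`rank Y ^ 2 = rank A` over the field of rational functions, and all eigenvalues of `Y` in `Ω` are
sums of arbitrarily many complex multiples of small roots.  Then the rank of `A` over the field of
rational functions is the rank of the complex matrix `A(p)` for one of these points `p`.

The hypothesis on the eigenvalues holds if all values of `Y` lie in a Lie algebra `𝔤` of complex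
`N × N` matrices such that the simple ideals of `𝔤 / rad 𝔤` have dimension at most `m`, and the
entries of `Y` have degree at most `w` (`lie_eigenvalueSums`), and it holds if `Y` is a sum of
arbitrarily many pairwise commuting matrices each of which is annihilated by a monic polynomial as
above (`commuting_eigenvalueSums`).  The hypothesis on the ranks holds for instance if `G` and `H`
have nonzero determinants and the values of `Y` at real points are Hermitian (`hermitian`).  So the
theorem covers the symbolic matrices `∑ x_k A_k`, where the `A_k` are Hermitian elements of a Lie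
algebra of matrices with simple ideals of bounded dimension, such as the sums
`∑_i 1 ⊗ ⋯ ⊗ M_i ⊗ ⋯ ⊗ 1`, where the `M_i` are symbolic matrices of bounded size with Hermitian
coefficients.

The proof.  The lowest nonzero coefficient `e` of the characteristic polynomial of `Y` is up to sign
the product of the nonzero eigenvalues of `Y`.  It is not killed by the generator with
`w (m ^ 2 + 2 m ^ 4)` seeds: see the theorem on products of sums of small roots in
`MP_3c5c20_lc.AlgebraicSums`.  At a point `p` with `e(p) ≠ 0` the matrix `Y(p)` has at least as many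
nonzero eigenvalues as `Y`, and the number of the nonzero eigenvalues of `Y` is the rank of `Y`,
because `Y` and `Y ^ 2` have the same rank.
-/

set_option autoImplicit false

namespace Pool.Agent.Results.MP_966f71_lc.EigenvalueSums

open MvPolynomial

/-- An algebraic closure of the field of rational functions in `n` variables. -/
abbrev Om (n : ℕ) : Type := AlgebraicClosure (FractionRing (MvPolynomial (Fin n) ℂ))

/-- `u` is a root of a monic polynomial of degree `d ≤ m` whose coefficient at `T ^ j` is a
polynomial in `x` of degree at most `w (d - j)`. -/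
def SmallRoot {n : ℕ} (m w : ℕ) (u : Om n) : Prop :=
  ∃ χ : Polynomial (MvPolynomial (Fin n) ℂ), χ.Monic ∧ χ.natDegree ≤ m ∧
    (∀ j, (χ.coeff j).totalDegree ≤ w * (χ.natDegree - j)) ∧
    χ.eval₂ (algebraMap (MvPolynomial (Fin n) ℂ) (Om n)) u = 0

/-- All eigenvalues of `Y` in `Ω` are finite sums `∑ c_i u_i` with complex numbers `c_i` and small
roots `u_i`. -/
def EigenvalueSums {n N : ℕ} (m w : ℕ)
    (Y : Matrix (Fin N) (Fin N) (MvPolynomial (Fin n) ℂ)) : Prop :=
  ∀ u : Om n, Y.charpoly.eval₂ (algebraMap (MvPolynomial (Fin n) ℂ) (Om n)) u = 0 →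
    u ∈ Submodule.span ℂ {u : Om n | SmallRoot m w u}

/-- The rank over the field of rational functions. -/
noncomputable def genericRank {n a b : ℕ}
    (A : Matrix (Fin a) (Fin b) (MvPolynomial (Fin n) ℂ)) : ℕ :=
  (A.map (algebraMap (MvPolynomial (Fin n) ℂ) (FractionRing (MvPolynomial (Fin n) ℂ)))).rank

/-- The number of seeds: `w (m ^ 2 + 2 m ^ 4)`. -/
def seeds (m w : ℕ) : ℕ := w * (m ^ 2 + 2 * m ^ 4)

/-- The integer point with coordinates `∑ l, y_l ∏_{k ≠ i} (z_l - k)`, `i = 0, …, n - 1`. -/
def point (n t : ℕ) (y z : Fin t → ℕ) : Fin n → ℤ :=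
  fun i => ∑ l : Fin t, (y l : ℤ) * ∏ k ∈ Finset.univ.erase i, ((z l : ℤ) - (k.val : ℤ))

/-- The points with `t` seeds `(y_l, z_l)`, where `0 ≤ y_l ≤ D` and `0 ≤ z_l ≤ n D`. -/
def points (n t D : ℕ) : Finset (Fin n → ℤ) :=
  ((Fintype.piFinset fun _ : Fin t => Finset.range (D + 1)) ×ˢ
    (Fintype.piFinset fun _ : Fin t => Finset.range (n * D + 1))).image
    fun yz => point n t yz.1 yz.2

theorem points_eq (n t D : ℕ) : points n t D = H530R2.hitSet n t D := rfl

attribute [local instance 100] LieRing.ofAssociativeRing in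
/-- The eigenvalues of polynomial matrices with values in a Lie algebra with simple ideals of
bounded dimension. -/
theorem lie_eigenvalueSums {n N : ℕ} (𝔤 : LieSubalgebra ℂ (Matrix (Fin N) (Fin N) ℂ)) (m w : ℕ)
    (h𝔤 : ∀ I : LieIdeal ℂ (𝔤 ⧸ LieAlgebra.radical ℂ 𝔤), IsAtom I → Module.finrank ℂ I ≤ m)
    (Y : Matrix (Fin N) (Fin N) (MvPolynomial (Fin n) ℂ))
    (hw : ∀ i j, (Y i j).totalDegree ≤ w) (hY : ∀ c : Fin n → ℂ, Y.map (eval c) ∈ 𝔤) :
    EigenvalueSums (max m 1) w Y :=
  TH189.Kr.lie_seig 𝔤 m w h𝔤 Y hw hY

/-- The eigenvalues of sums of commuting polynomial matrices of small degree. -/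
theorem commuting_eigenvalueSums {n N : ℕ} (m w r : ℕ)
    (Y : Fin r → Matrix (Fin N) (Fin N) (MvPolynomial (Fin n) ℂ))
    (hc : ∀ i j, Y i * Y j = Y j * Y i)
    (hY : ∀ i, ∃ χ : Polynomial (MvPolynomial (Fin n) ℂ), χ.Monic ∧ χ.natDegree ≤ m ∧
      (∀ j, (χ.coeff j).totalDegree ≤ w * (χ.natDegree - j)) ∧ Polynomial.aeval (Y i) χ = 0) :
    EigenvalueSums m w (∑ i, Y i) :=
  TH189.Kr.seig_sum m w Finset.univ Y (fun i _ j _ => hc i j) fun i _ => hY i

/-- Hermitian matrices have the same rank as their squares. -/
theorem hermitian {n N : ℕ} (Y : Matrix (Fin N) (Fin N) (MvPolynomial (Fin n) ℂ))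
    (h : ∀ c : Fin n → ℝ, (Y.map (eval fun i => (c i : ℂ))).IsHermitian) :
    genericRank (Y * Y) = genericRank Y :=
  TH189.Kr.hermitian_index Y h

/-- **Ranks of polynomial matrices whose eigenvalues are sums of algebraic functions of small
degree.**  Fix `N, n, m, w` with `m ≥ 1`.  The explicit set `points n (seeds m w) (N w)` has at
most `((N w + 1) (n N w + 1)) ^ seeds m w` elements.  Let `A` be a matrix of polynomials in `n`
variables, of any size, such that for some matrices `G`, `H` of polynomials all eigenvalues of the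
`N × N` matrix `G A H` are sums of complex multiples of small roots, and `(G A H) ^ 2` has over the
field of rational functions the same rank as `A`.  Then this rank is the rank of the complex matrix
`A(p)` for one of the explicit points `p`. -/
theorem result (N n m w : ℕ) (hm : 1 ≤ m) :
    (points n (seeds m w) (N * w)).card ≤ ((N * w + 1) * (n * (N * w) + 1)) ^ (seeds m w) ∧
    (∀ p ∈ points n (seeds m w) (N * w), ∀ i,
      |p i| ≤ (seeds m w * (N * w) * (n * (N * w) + n) ^ (n - 1) : ℕ)) ∧
    ∀ (a b : ℕ) (A : Matrix (Fin a) (Fin b) (MvPolynomial (Fin n) ℂ))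
      (G : Matrix (Fin N) (Fin a) (MvPolynomial (Fin n) ℂ))
      (H : Matrix (Fin b) (Fin N) (MvPolynomial (Fin n) ℂ)),
      EigenvalueSums m w (G * A * H) →
      genericRank ((G * A * H) * (G * A * H)) = genericRank A →
      (∀ c : Fin n → ℂ, (A.map (eval c)).rank ≤ genericRank A) ∧
      ∃ p ∈ points n (seeds m w) (N * w),
        (A.map (eval fun i => (p i : ℂ))).rank = genericRank A := by
  refine ⟨?_, ?_, ?_⟩
  · rw [points_eq]
    exact H530R2.hitSet_card _ _ _
  · intro p hp i
    rw [points_eq] at hp
    exact H530R2.hitSet_bound _ _ _ p hp i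
  intro a b A G H hE hrk
  have hle : ∀ c : Fin n → ℂ, (A.map (eval c)).rank ≤ genericRank A := fun c =>
    TH189.Kr.rank_eval_le A c
  refine ⟨hle, ?_⟩
  set Y := G * A * H with hY
  have hS : TH189.Kr.SEig m w Y := hE
  let j := algebraMap (MvPolynomial (Fin n) ℂ) (FractionRing (MvPolynomial (Fin n) ℂ))
  have h1 : TH189.Kr.grk Y ≤ TH189.Kr.grk A := by
    show (Y.map j).rank ≤ (A.map j).rank
    rw [hY, Matrix.map_mul, Matrix.map_mul]
    exact (Matrix.rank_mul_le_left _ _).trans (Matrix.rank_mul_le_right _ _)
  have h2 : TH189.Kr.grk (Y * Y) ≤ TH189.Kr.grk Y := by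
    show ((Y * Y).map j).rank ≤ (Y.map j).rank
    rw [Matrix.map_mul]
    exact Matrix.rank_mul_le_left _ _
  have h3 : TH189.Kr.grk (Y * Y) = TH189.Kr.grk A := hrk
  have hnot := TH189.Kr.trailing_notMem (fun i : Fin n => ((i.val : ℕ) : ℂ))
    (H530R2.nodes_injective n) m w hm Y hS _ dvd_rfl
  have hdeg := TH189.Kr.trailing_deg m w Y hS
  rw [Fintype.card_fin] at hdeg
  obtain ⟨p, hp, hp0⟩ := H530R2.exists_hit n (seeds m w) (N * w) _ hdeg hnot
  refine ⟨p, hp, le_antisymm (hle _) ?_⟩
  have h4 := TH189.Kr.rank_index_one Y (by omega) _ hp0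
  have h5 : (Y.map (eval fun i => (p i : ℂ))).rank ≤
      (A.map (eval fun i => (p i : ℂ))).rank := by
    rw [hY, Matrix.map_mul, Matrix.map_mul]
    exact (Matrix.rank_mul_le_left _ _).trans (Matrix.rank_mul_le_right _ _)
  have h6 : genericRank A = TH189.Kr.grk A := rfl
  omega

end Pool.Agent.Results.MP_966f71_lc.EigenvalueSums
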