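import Pool.Agent.TH762.PT.LawN

/-!
# Short proofs of polynomial identities and nondeterministic exclusion

`Gate`, `WF` (well-formed circuits) and `cpoly` (the polynomial over the integers computed by a
circuit) are those of `Pool.Agent.H531R2.CircDefs`. `LACIT` is identity testing for circuits in which
all formal degrees (leaves have the formal degree `1`, also the constants) are at most the number of
gates; this contains formulas, weakly skew circuits and determinants. It is in `coRP`, so in `coNP`.
It is not known to be in `NP`, and by Kabanets and Impagliazzo this would already imply that
`NEXP` is not contained in `P/poly` or that the permanent has no arithmetic circuits of polynomial
size.

Consider `m` questions to a set `A`, where `m = m (n)` is any number at most polynomial in the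
length `n` of the questions. `FeasibleIn InNP (ExcludeSorted A)`: some function with values of
polynomial length and graph in `NP` (so the values are found by nondeterministic machines in
polynomial time, and different successful computations agree) excludes, with `O(log n)` bits of
advice, one of the `m + 1` sorted vectors `1 ^ c 0 ^ (m - c)` as the vector of the answers.
`FeasibleIn InNP (ExcludeCount A)`: some such function excludes one of the `m + 1` values of the
number of positive answers. Each of these statements for some set `A` to which `LACIT` reduces is
equivalent to `LACIT ∈ NP`.

Proof. The search for the lexicographically largest list of numbers for which the restriction of the
polynomial does not vanish (`Pool.Agent.TH762.PT.Eng`) asks for the values of the excluding function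
adaptively. The functions with graph in `NP` and values of polynomial length are closed under
iteration (`fIter`): the list of all states is guessed, and all steps are verified at once by a
polynomially bounded conjunction. So the lists of candidates, for all possible numbers of questions
and values of the advice, are such functions. The polynomial is zero if and only if it vanishes at all
the candidates.
-/

set_option autoImplicit false

namespace Pool.Agent.Results.MP_966f71_lc.NondeterministicExclusion

open Pool.Agent.NPC Pool.Agent.TH762.XC Pool.Agent.TH684.EX Pool.Agent.TH762.PT

/-- **The exclusion law for proofs of identities.** -/
theorem result : List.TFAE
    [InNP LACIT,
      ∃ A : Set (List Bool), Reduces LACIT A ∧ FeasibleIn InNP (ExcludeSorted A),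
      ∃ A : Set (List Bool), Reduces LACIT A ∧ FeasibleIn InNP (ExcludeCount A)] :=
  lacit_np_law

end Pool.Agent.Results.MP_966f71_lc.NondeterministicExclusion
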