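import Pool.Agent.TH652.PN.Ex

/-!
# Edmonds' problem for block triangular families with polynormal blocks, in unknown bases

Let `A_1, …, A_m` be `n × n` matrices over an infinite field `K` (for instance the rational numbers)
and `A(x) = ∑ x_k A_k`.  Suppose that in unknown bases all `A_k` are block triangular, with any
number of blocks of any sizes, and that each family of diagonal blocks `M_1, …, M_m` is polynormal
on one side: in some order `M_i M_j ∈ 𝒜 M_i` modulo the ideal generated by the earlier ones, where
`𝒜` is the algebra generated by the family.  Examples: commuting and quasi-commuting families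
(`M_i M_j = q_{ij} M_j M_i`) and families with `[M_i, M_j]` in the span of the `M_k`, `k < i`.  Then
the rank of `A(x)` over the field of rational functions is less than `n` if and only if there is a
subspace `U` of `K^n` with `dim ∑ A_k U < dim U`: a certificate for the upper bound of the rank.
-/

set_option autoImplicit false

namespace Pool.Agent.Results.MP_966f71_lc.PolynormalBlocks

open Pool.Agent.TH652.PN

variable {K : Type} [Field K] {m : ℕ}

/-- The matrix `∑ x_k A_k` over the field of rational functions `K(x_1, …, x_m)`. -/
noncomputable def generic {n : ℕ} (A : Fin m → Matrix (Fin n) (Fin n) K) :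
    Matrix (Fin n) (Fin n) (FractionRing (MvPolynomial (Fin m) K)) :=
  (symb A).map (algebraMap (MvPolynomial (Fin m) K) (FractionRing (MvPolynomial (Fin m) K)))

/-- Some subspace `U` is mapped by the `A_k` into a subspace of smaller dimension. -/
def HasShrunk {n : ℕ} (A : Fin m → Matrix (Fin n) (Fin n) K) : Prop :=
  ∃ U : Submodule K (Fin n → K),
    Module.finrank K ↥(⨆ k, U.map (A k).mulVecLin) < Module.finrank K U

variable {ι : Type} [Fintype ι] [DecidableEq ι]

/-- `M_i M_j = q_{ij} M_j M_i` -/
def QuasiCommuting (M : Fin m → Matrix ι ι K) : Prop := ∀ i j, ∃ q : K, M i * M j = q • (M j * M i)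

/-- `[M_i, M_j]` is a linear combination of the `M_k` with `k < i`. -/
def LieNilpotent (M : Fin m → Matrix ι ι K) : Prop :=
  ∀ i j, M i * M j - M j * M i ∈ Submodule.span K (M '' {k | k < i})

/-- The families allowed as diagonal blocks: polynormal; in particular quasi-commuting and Lie
nilpotent families. -/
def BlockType (M : Fin m → Matrix ι ι K) : Prop := Polynormal M ∨ QuasiCommuting M ∨ LieNilpotent M

/-- In unknown bases the matrices `A_k` are block triangular (`b i` is the number of the block of
the index `i`), and the families of the diagonal blocks are as above. -/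
def HiddenBlocks {n : ℕ} (A : Fin m → Matrix (Fin n) (Fin n) K) : Prop :=
  ∃ (P Q : Matrix (Fin n) (Fin n) K) (b : Fin n → ℕ), P.det ≠ 0 ∧ Q.det ≠ 0 ∧
    (∀ k, (P * A k * Q).BlockTriangular b) ∧
    ∀ q, BlockType fun k => (P * A k * Q).toSquareBlock b q

theorem rank_lt_iff {F : Type} [Field F] {n : ℕ} (M : Matrix (Fin n) (Fin n) F) :
    M.rank < n ↔ M.det = 0 := by
  constructor
  · intro h
    by_contra h1
    have h2 : IsUnit M := (Matrix.isUnit_iff_isUnit_det M).2 (isUnit_iff_ne_zero.2 h1)
    have h3 := Matrix.rank_of_isUnit M h2
    rw [Fintype.card_fin] at h3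
    omega
  · intro h
    obtain ⟨v, hv, h1⟩ := Matrix.exists_mulVec_eq_zero_iff.2 h
    have h2 : M.rank ≤ n := by
      have := Matrix.rank_le_width M
      exact this
    refine lt_of_le_of_ne h2 fun h3 => hv ?_
    have h4 : Function.Injective M.mulVecLin := by
      rw [← LinearMap.ker_eq_bot]
      apply (Submodule.finrank_eq_zero).1
      have h5 := LinearMap.finrank_range_add_finrank_ker M.mulVecLin
      rw [Module.finrank_fintype_fun_eq_card, Fintype.card_fin] at h5
      have h6 : Module.finrank F (LinearMap.range M.mulVecLin) = n := h3
      omega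
    apply h4
    rw [map_zero]
    exact h1

/-- The rank of `∑ x_k A_k` is less than `n` if and only if there is a shrunk subspace. -/
theorem result :
    ∀ (K : Type) [Field K] [Infinite K] (n m : ℕ) (A : Fin m → Matrix (Fin n) (Fin n) K),
      HiddenBlocks A → ((generic A).rank < n ↔ HasShrunk A) := by
  intro K _ _ n m A h
  rw [rank_lt_iff]
  have h1 : (generic A).det = 0 ↔ (symb A).det = 0 := by
    unfold generic
    rw [← RingHom.mapMatrix_apply, ← RingHom.map_det]
    exact map_eq_zero_iff _ (IsFractionRing.injective _ _)
  rw [h1]
  refine edmonds_rado ?_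
  obtain ⟨P, Q, b, hP, hQ, hb, ht⟩ := h
  refine ⟨P, Q, b, hP, hQ, hb, fun q => ?_⟩
  rcases ht q with h | h | h
  · exact h
  · exact polynormal_of_quasi h
  · exact polynormal_of_lie h

end Pool.Agent.Results.MP_966f71_lc.PolynormalBlocks
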