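import Pool.Agent.TH925.VH.Time

/-!
# `RANK` and cubic forms with vanishing Hessian

* `Rank` : the problem `RANK` of the file (is the rank of a matrix of polynomials over the field of
  rational functions at least `r`?).
* `VanHess` : does the determinant of the Hessian matrix of a cubic form with rational coefficients
  vanish identically?

`RANK` and the complement of `VanHess` are reducible to each other by polynomial-time many-one
reductions. So `RANK` is in `coNP` if and only if `VanHess` is in `NP`, and `RANK` is in `P` if and
only if `VanHess` is in `P`.

Proof. The Hessian matrix of a cubic form is a matrix of linear forms. Conversely, the rank of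
`A(y)` is at least `r` if and only if `det (U A(y) V)` does not vanish identically, where `U`, `V`
are matrices of new variables; writing the monomials of the entries as paths this becomes the
determinant of a matrix `B(x)` of linear forms in variables `x_1, …, x_v`. Consider the cubic form
`f = ∑_{c ≤ v} y_cᵀ B(x) z_c + ∑_i x_i² u_i` with `v + 1` copies. If `det B(x) ≠ 0` for some `x`
with nonzero coordinates then the Hessian matrix is nonsingular at `(x, 0, 0, 0)`. If `B(x)` is
singular for all `x` then at each point a kernel vector `κ` of `B(x)ᵀ` gives kernel vectors
`(α_0 κ, …, α_v κ)` of the Hessian matrix, where `α` solves `v` linear equations in `v + 1`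
unknowns.
-/

namespace Pool.Agent.Results.MP_966f71_lc.VanishingHessians

open Pool.Agent.NPC Pool.Agent.NPC.TH925VH Pool.Agent.TH925.VH

theorem result :
    (InNP (lang Rank)ᶜ ↔ InNP (lang VanHess)) ∧ (InP (lang Rank) ↔ InP (lang VanHess)) ∧
      Reduces (lang Rank)ᶜ (lang VanHess) ∧ Reduces (lang VanHess)ᶜ (lang Rank) :=
  ⟨np_iff, p_iff, red_rank, red_hess⟩

end Pool.Agent.Results.MP_966f71_lc.VanishingHessians
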